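import Pool.Agent.Helper42.PW.Goals1

/-!
# Project PW (MP_fc6b1e_nt), packet L_CLO: the closure of a number field
-/

set_option autoImplicit false

namespace Pool.Agent.Helper53.PW

open NumberField Module TensorProduct

section clo

theorem char0 (p : ℕ) [Fact p.Prime] (k : Type) [NormedField k] [NormedAlgebra ℚ_[p] k] :
    CharZero k := charZero_of_injective_algebraMap (algebraMap ℚ_[p] k).injective

variable (p : ℕ) [Fact p.Prime] {k : Type} [NormedField k] [NormedAlgebra ℚ_[p] k]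
  {H : Type} [Field H] [NumberField H]

/-- Every element of `ℚ_p ⊗ H` is approximated by elements of `H`. -/
theorem approx [CharZero k] (φ ψ : (ℚ_[p] ⊗[ℚ] H) →ₐ[ℚ_[p]] k) (a : ℚ_[p] ⊗[ℚ] H) (e : ℝ)
    (he : 0 < e) : ∃ x : H, ‖φ a - φ (1 ⊗ₜ x)‖ < e ∧ ‖ψ a - ψ (1 ⊗ₜ x)‖ < e := by
  induction a using TensorProduct.induction_on generalizing e with
  | zero =>
    refine ⟨0, ?_, ?_⟩
    · rw [tmul_zero, sub_self, norm_zero]
      exact he
    · rw [tmul_zero, sub_self, norm_zero]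
      exact he
  | tmul c y =>
    obtain ⟨q, hq⟩ := Padic.rat_dense p c
      (show 0 < e / (‖φ (1 ⊗ₜ y)‖ + ‖ψ (1 ⊗ₜ y)‖ + 1) by positivity)
    rw [lt_div_iff₀ (by positivity)] at hq
    have h1 : (1 : ℚ_[p]) ⊗ₜ[ℚ] (q • y) = (q : ℚ_[p]) ⊗ₜ[ℚ] y := by
      rw [← smul_tmul, Rat.smul_one_eq_cast]
    have h2 : ∀ χ : (ℚ_[p] ⊗[ℚ] H) →ₐ[ℚ_[p]] k, χ (c ⊗ₜ y) - χ (1 ⊗ₜ (q • y)) =
        algebraMap ℚ_[p] k (c - q) * χ (1 ⊗ₜ y) := by
      intro χ
      rw [h1, ← map_sub, ← sub_tmul, ← Algebra.smul_def, ← map_smul, smul_tmul', smul_eq_mul,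
        mul_one]
    refine ⟨q • y, ?_, ?_⟩
    · rw [h2, norm_mul, norm_algebraMap']
      refine lt_of_le_of_lt ?_ hq
      have h3 : 0 ≤ ‖ψ (1 ⊗ₜ y)‖ := norm_nonneg _
      exact mul_le_mul_of_nonneg_left (by linarith) (norm_nonneg _)
    · rw [h2, norm_mul, norm_algebraMap']
      refine lt_of_le_of_lt ?_ hq
      have h3 : 0 ≤ ‖φ (1 ⊗ₜ y)‖ := norm_nonneg _
      exact mul_le_mul_of_nonneg_left (by linarith) (norm_nonneg _)
  | add a b ha hb =>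
    obtain ⟨x, hx1, hx2⟩ := ha (e / 2) (by positivity)
    obtain ⟨y, hy1, hy2⟩ := hb (e / 2) (by positivity)
    refine ⟨x + y, ?_, ?_⟩
    · rw [tmul_add, map_add, map_add, add_sub_add_comm]
      exact lt_of_le_of_lt (norm_add_le _ _) (by linarith)
    · rw [tmul_add, map_add, map_add, add_sub_add_comm]
      exact lt_of_le_of_lt (norm_add_le _ _) (by linarith)

end clo

theorem l_clo : Pool.Agent.Helper42.PW.L_CLO := by
  intro p _ k _ _ _ H _ _ τ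
  have hc : CharZero k := char0 p k
  -- the map from the tensor product
  let φ : (ℚ_[p] ⊗[ℚ] H) →ₐ[ℚ_[p]] k :=
    Algebra.TensorProduct.lift (Algebra.ofId ℚ_[p] k) τ.toRatAlgHom (fun _ _ ↦ Commute.all _ _)
  have hφ : ∀ x : H, φ (1 ⊗ₜ x) = τ x := by
    intro x
    show φ (1 ⊗ₜ x) = τ x
    simp [φ]
  have hfin : FiniteDimensional ℚ_[p] φ.range :=
    Module.Finite.of_surjective φ.rangeRestrict.toLinearMap (AlgHom.rangeRestrict_surjective φ)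
  have hinv : ∀ x ∈ φ.range, x⁻¹ ∈ φ.range := by
    intro x hx
    have h1 : IsIntegral ℚ_[p] (⟨x, hx⟩ : φ.range) := Algebra.IsIntegral.isIntegral _
    have h2 : IsIntegral ℚ_[p] x := h1.map φ.range.val
    exact Subalgebra.inv_mem_of_algebraic (A := φ.range) (x := ⟨x, hx⟩) h2.isAlgebraic
  let ℋ : IntermediateField ℚ_[p] k := φ.range.toIntermediateField hinv
  have hℋ : ∀ y : k, y ∈ ℋ ↔ ∃ a, φ a = y := fun y ↦ Iff.rfl
  have hτ : ∀ x : H, τ x ∈ ℋ := fun x ↦ ⟨1 ⊗ₜ x, hφ x⟩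
  refine ⟨ℋ, hfin, hτ, ?_, ?_⟩
  · rintro y ⟨a, rfl⟩ e he
    obtain ⟨x, hx, -⟩ := approx p φ φ a e he
    rw [hφ] at hx
    exact ⟨x, hx⟩
  · intro g hg
    let gt : (ℚ_[p] ⊗[ℚ] H) →ₐ[ℚ_[p]] (ℚ_[p] ⊗[ℚ] H) :=
      Algebra.TensorProduct.map (AlgHom.id ℚ_[p] ℚ_[p]) g.toRingHom.toRatAlgHom
    let ψ : (ℚ_[p] ⊗[ℚ] H) →ₐ[ℚ_[p]] k := φ.comp gt
    have hψ : ∀ x : H, ψ (1 ⊗ₜ x) = τ (g x) := by
      intro x
      show φ (gt (1 ⊗ₜ x)) = τ (g x)
      rw [← hφ]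
      rfl
    have hnorm : ∀ a, ‖ψ a‖ = ‖φ a‖ := by
      intro a
      refine eq_of_forall_dist_le fun e he ↦ ?_
      obtain ⟨x, hx1, hx2⟩ := approx p φ ψ a (e / 2) (by positivity)
      rw [hφ] at hx1
      rw [hψ] at hx2
      have h1 := abs_norm_sub_norm_le (φ a) (τ x)
      have h2 := abs_norm_sub_norm_le (ψ a) (τ (g x))
      rw [hg] at h2
      rw [Real.dist_eq]
      rw [abs_le] at h1 h2 ⊢
      constructor <;> linarith [h1.1, h1.2, h2.1, h2.2]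
    have hψmem : ∀ a, ψ a ∈ ℋ := fun a ↦ ⟨gt a, rfl⟩
    let φ' : (ℚ_[p] ⊗[ℚ] H) →ₐ[ℚ_[p]] ℋ := φ.codRestrict ℋ.toSubalgebra (fun a ↦ ⟨a, rfl⟩)
    let ψ' : (ℚ_[p] ⊗[ℚ] H) →ₐ[ℚ_[p]] ℋ := ψ.codRestrict ℋ.toSubalgebra hψmem
    have hφs : Function.Surjective φ' := by
      rintro ⟨y, a, ha⟩
      exact ⟨a, Subtype.ext ha⟩
    have hsur : ∀ a, ∃ b, ψ b = φ a := by
      intro a
      induction a using TensorProduct.induction_on with
      | zero => exact ⟨0, by rw [map_zero, map_zero]⟩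
      | tmul c y =>
        refine ⟨c ⊗ₜ g.symm y, ?_⟩
        show φ (gt (c ⊗ₜ g.symm y)) = φ (c ⊗ₜ y)
        have h1 : gt (c ⊗ₜ g.symm y) = c ⊗ₜ (g (g.symm y)) := rfl
        rw [h1, RingEquiv.apply_symm_apply]
      | add a b ha hb =>
        obtain ⟨a', ha'⟩ := ha
        obtain ⟨b', hb'⟩ := hb
        exact ⟨a' + b', by rw [map_add, map_add, ha', hb']⟩
    have hψs : Function.Surjective ψ' := by
      rintro ⟨y, a, ha⟩
      obtain ⟨b, hb⟩ := hsur a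
      exact ⟨b, Subtype.ext (hb.trans ha)⟩
    have hker : RingHom.ker φ' = RingHom.ker ψ' := by
      ext a
      rw [RingHom.mem_ker, RingHom.mem_ker]
      have h1 : φ' a = 0 ↔ φ a = 0 := by
        rw [← ZeroMemClass.coe_eq_zero]
        rfl
      have h2 : ψ' a = 0 ↔ ψ a = 0 := by
        rw [← ZeroMemClass.coe_eq_zero]
        rfl
      rw [h1, h2, ← norm_eq_zero, ← hnorm, norm_eq_zero]
    refine ⟨(Ideal.quotientKerAlgEquivOfSurjective hφs).symm.trans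
      ((Ideal.quotientEquivAlgOfEq ℚ_[p] hker).trans
        (Ideal.quotientKerAlgEquivOfSurjective hψs)), fun x ↦ ?_⟩
    have h1 : (⟨τ x, hτ x⟩ : ℋ) = Ideal.quotientKerAlgEquivOfSurjective hφs
        (Ideal.Quotient.mk _ (1 ⊗ₜ x)) := Subtype.ext (hφ x).symm
    rw [h1, AlgEquiv.trans_apply, AlgEquiv.symm_apply_apply]
    exact hψ x

end Pool.Agent.Helper53.PW
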