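import Pool.Agent.Helper94.PB.VEXB
import Pool.Agent.Helper42.PW.Goals4

/-!
# Project W (MP_fc6b1e_nt): W_EXB, existence of the base data with given primes in `S`
-/

set_option autoImplicit false

namespace Pool.Agent.Helper53.PW

open NumberField Polynomial Module IsDedekindDomain Pool.Agent.Helper51.SigLeo
open Pool.Agent.Helper51.RP Pool.Agent.Helper42.RD Pool.Agent.Helper42.PP
open Pool.Agent.Helper42.PP1 (SitW subs_aut freeP_self sitW_one)
open Pool.Agent.Helper42.PB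
open Pool.Agent.Helper40.RS (bel)
open Pool.Agent.Helper40.RD (bel_of_above ordW)
open Pool.Agent.Helper38.RS (pz)
open Pool.Agent.Helper99.RS (pz_mono pz_union pz_finite finite_bad)
open Pool.Agent.Helper46.PP.Sch (sex avoid ram_fin ord_eq)
open Pool.Agent.Helper94.PB

/-- **W_EXB.** -/
theorem w_exb : Pool.Agent.Helper42.PW.W_EXB := by
  classical
  intro p hp K M K₁ M₁ J M₂ _ _ _ _ _ _ _ _ _ _ _ _ _ _ _ _ _ _ _ _ _ _ _ ε δ P a₀ hB S₀
  have hs := hB.sit
  have := hs.st1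
  have := hs.st2
  have := hs.gMK
  have := hB.t1
  have := hB.t2
  have := hB.t3
  have := hB.gM₂
  have hfd : FiniteDimensional K M₂ := Module.Finite.of_restrictScalars_finite ℚ K M₂
  have hfinI : Finite (IntermediateField K M₂) :=
    (Field.exists_primitive_element_iff_finite_intermediateField K M₂).1
      ⟨inferInstance, Field.exists_primitive_element K M₂⟩
  -- the set of primes
  have h1 := ram_fin K M₂
  have h2 := finite_bad (F := M₂) a₀.ne_zero
  choose SF hSF1 hSFa hSFb hSF2 using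
    fun F : IntermediateField K M₂ => sex K F ∅ Set.finite_empty
  have h3 : (⋃ F : IntermediateField K M₂, bel K '' (SF F)).Finite :=
    Set.finite_iUnion fun F => (hSF1 F).image (bel K)
  obtain ⟨S, hS₁, hSp, hunr, hprM, hprK, hprMK, hUM, hUK⟩ := schB hs
    (h1.toFinset ∪ (h2.image (bel K)).toFinset ∪ h3.toFinset ∪ S₀)
  have hS₀ : (h1.toFinset ∪ (h2.image (bel K)).toFinset ∪ h3.toFinset) ⊆ S :=
    fun v hv => hS₁ (Finset.mem_union_left _ hv)
  obtain ⟨B, hBS⟩ := exbS hs S hSp hunr hprM hprK hprMK hUM hUK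
  have hSr : ∀ v : HeightOneSpectrum (𝓞 K), v ∉ S → ¬ ∃ V : HeightOneSpectrum (𝓞 M₂),
      Above V v ∧ v.asIdeal.map (algebraMap (𝓞 K) (𝓞 M₂)) ≤ V.asIdeal ^ 2 := by
    intro v hv h
    exact hv (hS₀ (by simp only [Finset.mem_union, Set.Finite.mem_toFinset]; exact Or.inl (Or.inl h)))
  have hSa : ∀ W : HeightOneSpectrum (𝓞 M₂), W ∉ up M₂ S → W.valuation M₂ (a₀ : M₂) = 1 := by
    intro W hW
    by_contra h
    apply hW
    refine ⟨bel K W, hS₀ ?_, rfl⟩
    simp only [Finset.mem_union, Set.Finite.mem_toFinset]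
    exact Or.inl (Or.inr ⟨W, h, rfl⟩)
  have hSF : ∀ (F : IntermediateField K M₂) (w : HeightOneSpectrum (𝓞 F)), w ∈ SF F →
      w ∈ up F S := by
    intro F w hw
    refine ⟨bel K w, hS₀ ?_, rfl⟩
    simp only [Finset.mem_union, Set.Finite.mem_toFinset, Set.mem_iUnion]
    exact Or.inr ⟨F, w, hw, rfl⟩
  have hunr₂ : ∀ v : HeightOneSpectrum (𝓞 K), v ∉ S → ∀ W : HeightOneSpectrum (𝓞 M₂),
      Above W v → ∀ x : K, ordv W (algebraMap K M₂ x) = ordv v x := by
    intro v hv W hW x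
    exact ord_eq hW (fun h => hSr v hv ⟨W, hW, h⟩) x
  -- the primes of `M₂`
  have hW₂ : ∀ v : HeightOneSpectrum (𝓞 K), ∃ W₂ : HeightOneSpectrum (𝓞 M₂),
      v ∈ Spl M₂ S → Above W₂ v ∧ Above W₂ (B.W v) ∧ FreeP K W₂ := by
    intro v
    obtain ⟨W₂, hW₂⟩ := exists_bel (M₁ := M₂) (B.W v)
    refine ⟨W₂, fun hv => ?_⟩
    obtain ⟨hvS, W', hW', hW'f⟩ := hv
    have hb' : bel K W' = v := bel_of_above hW'
    have hvis : v ∈ Spl M₁ B.S := by
      rw [hBS]
      refine ⟨hvS, bel M₁ W', ?_, Pool.Agent.Helper79.PP.free_bel W' hW'f⟩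
      have hb2 : bel K (bel M₁ W') = v := (bel_bel W').trans hb'
      exact congrArg HeightOneSpectrum.asIdeal hb2
    have hWv := (B.Wa v hvis).1
    have hb : bel K W₂ = v := by
      rw [← bel_bel (M := M₁) W₂, hW₂]
      exact bel_of_above hWv
    refine ⟨congrArg HeightOneSpectrum.asIdeal hb, ?_, ?_⟩
    · rw [← hW₂]
      exact above_bel W₂
    · exact free_of_conj (conj_of_bel' (hb.trans hb'.symm)) hW'f
  choose W₂ hW₂ using hW₂
  have hx : ∀ v : HeightOneSpectrum (𝓞 K), ∃ x : Kˣ, v ∈ Spl M₂ S → ordv v (x : K) = 0 ∧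
      LocPow p (W₂ v) ((a₀ : M₂) * (algebraMap K M₂ (x : K))⁻¹) := by
    intro v
    by_cases hv : v ∈ Spl M₂ S
    · obtain ⟨hWv, -, hf⟩ := hW₂ v hv
      obtain ⟨x, hx⟩ := Pool.Agent.Helper64.PP.exists_close (K := K) (W₂ v) hf (a₀ : M₂)
        a₀.ne_zero
      have h5 := val_eq_one_of_sub _ hx
      have hx0 : x ≠ 0 := by
        rintro rfl
        rw [map_zero, zero_div, map_zero] at h5
        exact zero_ne_one h5
      refine ⟨Units.mk0 x hx0, fun _ => ⟨?_, ?_⟩⟩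
      · have h6 : ordv (W₂ v) (algebraMap K M₂ x) = ordv (W₂ v) (a₀ : M₂) :=
          ordv_eq_of_div _ a₀.ne_zero hx
        have h7 : ordv (W₂ v) (a₀ : M₂) = 0 := by
          refine (ordv_eq_zero_iff _ a₀.ne_zero).2 (hSa _ ?_)
          rintro ⟨v', hv', hab⟩
          have h8 : v' = v := by
            rw [← bel_of_above hab, bel_of_above hWv]
          rw [h8] at hv'
          exact hv.1 hv'
        show ordv v x = 0
        rw [← hunr₂ v hv.1 _ hWv, h6, h7]
      · have h8 := val_inv_sub _ hx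
        rw [inv_div, div_eq_mul_inv] at h8
        exact locPow_of_sub _ h8
    · exact ⟨1, fun h => absurd h hv⟩
  choose xv hxv using hx
  refine ⟨B, ?_, ⟨⟨?_, ?_, ?_, W₂, ?_, fun v => B.th v (inc K M₁ (xv v)), ?_⟩⟩⟩
  · rw [hBS]
    exact fun v hv => hS₁ (Finset.mem_union_right _ hv)
  · rw [hBS]
    exact hunr₂
  · rw [hBS]
    intro W hW
    rw [(ordv_eq_zero_iff W a₀.ne_zero).2 (hSa W hW)]
    exact dvd_zero _
  · rw [hBS]
    intro F n
    obtain ⟨x, hx⟩ := hSF2 F n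
    exact ⟨x, fun w hw => hx w fun h => hw (hSF F w h)⟩
  · rw [hBS]
    exact hW₂
  · rw [hBS]
    intro v hv
    exact ⟨xv v, (hxv v hv).1, rfl, (hxv v hv).2⟩

end Pool.Agent.Helper53.PW
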